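import Pool.Agent.helper45.BR.Spec

/-!
# Project br: module CPT (invariant compact sets)
-/

set_option autoImplicit false

open Complex Metric Set Filter Topology MeasureTheory MPS Pool.Agent.helper98.ILF
  Pool.Agent.helper16.Multibrot

noncomputable section

namespace BR

theorem CPT_mt {g : ℂ → ℂ} {U : Set ℂ} (h : MapsTo g U U) (k : ℕ) : MapsTo g^[k] U U := h.iterate k

theorem CPT_diff {g : ℂ → ℂ} {U : Set ℂ} (h : MapsTo g U U) (hd : DifferentiableOn ℂ g U) (k : ℕ) :
    DifferentiableOn ℂ g^[k] U := by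
  induction k with
  | zero => exact differentiableOn_id
  | succ k ih =>
    rw [Function.iterate_succ']
    exact hd.comp ih (h.iterate k)

theorem CPT (hORB : ORB_stmt) (hTMO : V3.TMO_stmt) : CPT_stmt := by
  intro g U hR L hLU hL
  set S : Set ℂ := ⋃ k : ℕ, g^[k] '' L with hS
  have hmt : ∀ k, MapsTo g^[k] U U := CPT_mt hR.mt
  have hdi : ∀ k, DifferentiableOn ℂ g^[k] U := CPT_diff hR.mt hR.di
  have hSU : S ⊆ U := by
    intro w hw
    obtain ⟨k, z, hz, rfl⟩ := mem_iUnion.1 hw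
    exact hmt k (hLU hz)
  have hLS : L ⊆ S := fun z hz => mem_iUnion.2 ⟨0, z, hz, rfl⟩
  have hgS : MapsTo g S S := by
    intro w hw
    obtain ⟨k, z, hz, rfl⟩ := mem_iUnion.1 hw
    refine mem_iUnion.2 ⟨k + 1, z, hz, ?_⟩
    rw [Function.iterate_succ_apply']
  have hcl : closure S ⊆ U := by
    intro p hp
    have hex : ∀ i : ℕ, ∃ k : ℕ, ∃ z ∈ L, dist p (g^[k] z) < 1 / ((i : ℝ) + 1) := by
      intro i
      obtain ⟨w, hw, hd⟩ := Metric.mem_closure_iff.1 hp (1 / ((i : ℝ) + 1)) (by positivity)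
      obtain ⟨k, z, hz, rfl⟩ := mem_iUnion.1 hw
      exact ⟨k, z, hz, hd⟩
    choose k z hz hd using hex
    obtain ⟨z₀, hz₀, hle⟩ := hL.ultrafilter_le_nhds ((hyperfilter ℕ).map z) (by
      rw [le_principal_iff]
      exact Filter.mem_map.2 (Filter.Eventually.of_forall hz))
    have hzt : Tendsto z (hyperfilter ℕ : Filter ℕ) (𝓝 z₀) := hle
    have hz₀U : z₀ ∈ U := hLU hz₀
    obtain ⟨F, hF, hFt⟩ := hTMO (hyperfilter ℕ) (fun i => g^[k i]) U hR.op (by
      intro x hx
      obtain ⟨r, hr, hrU⟩ := Metric.isOpen_iff.1 hR.op x hx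
      refine ⟨r, hr, 4, Filter.Eventually.of_forall fun i => ⟨(hdi (k i)).mono hrU, ?_⟩⟩
      intro y hy
      have := hR.bd (hmt (k i) (hrU hy))
      rw [mem_ball_zero_iff] at this
      exact this.le)
    have h1 : Tendsto (fun i => g^[k i] (z i)) (hyperfilter ℕ : Filter ℕ) (𝓝 (F z₀)) := by
      refine hFt.tendsto_comp (hF.continuousOn z₀ hz₀U) hz₀U ?_
      exact tendsto_nhdsWithin_iff.2 ⟨hzt, Filter.Eventually.of_forall fun i => hLU (hz i)⟩
    have h2 : Tendsto (fun i => g^[k i] (z i)) (hyperfilter ℕ : Filter ℕ) (𝓝 p) := by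
      have h3 : Tendsto (fun i => g^[k i] (z i)) atTop (𝓝 p) := by
        rw [tendsto_iff_dist_tendsto_zero]
        refine squeeze_zero (fun i => dist_nonneg) (fun i => ?_)
          tendsto_one_div_add_atTop_nhds_zero_nat
        rw [dist_comm]
        exact (hd i).le
      refine h3.mono_left ?_
      rw [← Nat.cofinite_eq_atTop]
      exact hyperfilter_le_cofinite
    have h3 : p = F z₀ := tendsto_nhds_unique h2 h1
    obtain ⟨C, hCU, hC, hCk⟩ := hORB g U hR z₀ hz₀U
    have h4 : Tendsto (fun i => g^[k i] z₀) (hyperfilter ℕ : Filter ℕ) (𝓝 (F z₀)) :=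
      hFt.tendsto_at hz₀U
    have h5 : F z₀ ∈ C := hC.isClosed.mem_of_tendsto h4 (Filter.Eventually.of_forall fun i => hCk _)
    rw [h3]
    exact hCU h5
  refine ⟨closure S, hcl, ?_, hLS.trans subset_closure, ?_⟩
  · refine Metric.isCompact_of_isClosed_isBounded isClosed_closure ?_
    exact (Metric.isBounded_ball.subset (hSU.trans hR.bd)).closure
  · intro x hx
    have hc : ContinuousWithinAt g S x :=
      ((hR.di x (hcl hx)).continuousWithinAt).mono hSU
    exact hc.mem_closure hx hgS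

end BR
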